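import Pool.Agent.H.MP_60620c_an.E

namespace Pool.Agent.Results.MP_60620c_an.Yes

open MeasureTheory Set

theorem result : ∃ (S : Set ℝ) (p q : ℝ → ℝ × ℝ), S ⊆ cantorSet ∧
    (∀ s ∈ S, ((q s).1 - (p s).1) ^ 2 + ((q s).2 - (p s).2) ^ 2 = 1 ∧
      (q s).2 - (p s).2 = s * ((q s).1 - (p s).1)) ∧
    volume (⋃ s ∈ S, segment ℝ (p s) (q s)) = 0 ∧
    ∃ K : Set (ℝ × ℝ), MeasurableSet K ∧ 0 < volume K ∧
      K ⊆ ⋃ s ∈ S, AffineMap.homothety (midpoint ℝ (p s) (q s)) (2 : ℝ) ''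
        segment ℝ (p s) (q s) := by
  obtain ⟨A, a1, a2, a3, K, k1, k2, k3⟩ := Pool.Agent.H.MP_60620c_an.dual
  have ex : ∀ s, ∃ b, s ∈ Prod.fst '' A → (s, b) ∈ A := fun s => by
    by_cases h : s ∈ Prod.fst '' A
    · obtain ⟨a, ha, rfl⟩ := h
      exact ⟨a.2, fun _ => ha⟩
    · exact ⟨0, fun h' => absurd h' h⟩
  choose b hb using ex
  set r : ℝ → ℝ := fun s => 1 / √(1 + s ^ 2) with hr
  have r0 : ∀ s, 0 < r s := fun s => by positivity
  have r1 : ∀ s, r s ^ 2 * (1 + s ^ 2) = 1 := fun s => by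
    simp only [hr, div_pow, Real.sq_sqrt (show 0 ≤ 1 + s ^ 2 by positivity)]
    field_simp
  refine ⟨Prod.fst '' A, fun s => (1, b s + s), fun s => (1 + r s, b s + s * (1 + r s)), ?_,
    fun s _ => ⟨by simp only; linarith [r1 s], by ring⟩, measure_mono_null ?_ a3, K, k1, k2, ?_⟩
  · rintro _ ⟨a, ha, rfl⟩
    exact a1 a ha
  · intro z hz
    obtain ⟨s, hs, u, v, u0, v0, uv, rfl⟩ := mem_iUnion₂.1 hz
    have r2 : r s ≤ 1 := by
      by_contra h
      push Not at h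
      nlinarith [r1 s, sq_nonneg s, mul_nonneg (sq_nonneg (r s)) (sq_nonneg s)]
    obtain rfl : u = 1 - v := by linarith
    refine ⟨⟨_, hb s hs, by simp; ring⟩, ⟨?_, ?_⟩, trivial⟩
    · simp; nlinarith [r0 s]
    · simp; nlinarith [r0 s]
  · intro z hz
    obtain ⟨⟨a, ha, e⟩, ⟨x1, x2⟩, -⟩ := k3 hz
    have hs : a.1 ∈ Prod.fst '' A := ⟨a, ha, rfl⟩
    have eb : b a.1 = a.2 := a2 _ (hb _ hs) a ha rfl
    obtain ⟨s0, s1⟩ := cantorSet_subset_unitInterval (a1 a ha)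
    have r3 : 1 / 2 ≤ r a.1 := by
      by_contra h
      push Not at h
      have : r a.1 ^ 2 ≤ 1 / 4 := by nlinarith [r0 a.1]
      have : a.1 ^ 2 ≤ 1 := by nlinarith
      nlinarith [r1 a.1, sq_nonneg (r a.1)]
    have r4 := r0 a.1
    set t := (z.1 - 1) / (2 * r a.1) + 1 / 4 with ht
    have t1 : t * r a.1 = (z.1 - 1) / 2 + r a.1 / 4 := by rw [ht]; field_simp
    have t0 : 0 ≤ t := by
      by_contra h
      push Not at h
      nlinarith
    have t2 : t ≤ 1 := by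
      by_contra h
      push Not at h
      nlinarith
    refine mem_iUnion₂.2 ⟨a.1, hs, _, ⟨1 - t, t, by linarith, t0, by ring, rfl⟩, ?_⟩
    ext
    · simp [AffineMap.homothety_apply, midpoint_eq_smul_add]
      linarith
    · simp [AffineMap.homothety_apply, midpoint_eq_smul_add, e, eb]
      linear_combination 2 * a.1 * t1

end Pool.Agent.Results.MP_60620c_an.Yes
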